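import Mathlib

set_option autoImplicit false

/-!
The diametral local diameter two property (slices) and the diametral diameter two property
(relatively weakly open sets) coincide, and both imply the diametral property at unit vectors for
convex combinations of relatively weakly open sets (so in particular the restricted diametral
strong diameter two property), and a Daugavet property relative to every face: finitely many
relatively weakly open sets that meet the convex hull of `P ∪ -P`, where `P` is a finite subset of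
the unit sphere contained in one face, contain points on which one functional of the dual ball is
almost `-1` while it is almost `1` on `P`. Everything is proved for every real normed space, complete
or not, in a local form, at the unit vectors that lie in an arbitrary norm open set `G`.
-/

namespace Pool.Agent.Results.MP_6ac155_an.DiametralFaces

open Metric

/-- `S` is a slice of the closed unit ball of `X`:
`S = {x ∈ B_X : f x > 1 - α}` with `f` of norm `1` in the dual and `α > 0`. -/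
def IsSlice {X : Type*} [NormedAddCommGroup X] [NormedSpace ℝ X] (S : Set X) : Prop :=
  ∃ (f : X →L[ℝ] ℝ) (α : ℝ), ‖f‖ = 1 ∧ 0 < α ∧ S = {x : X | x ∈ closedBall (0 : X) 1 ∧ f x > 1 - α}

/-- `W` is a relatively weakly open subset of the closed unit ball of `X`:
`W = U ∩ B_X` with `U` open in the weak topology. -/
def IsWeaklyOpenInBall {X : Type*} [NormedAddCommGroup X] [NormedSpace ℝ X] (W : Set X) : Prop :=
  ∃ U : Set (WeakSpace ℝ X), IsOpen U ∧ W = {x : X | x ∈ closedBall (0 : X) 1 ∧ toWeakSpace ℝ X x ∈ U}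

variable {X : Type*} [NormedAddCommGroup X] [NormedSpace ℝ X]

/-- The diametral property of slices at the unit vectors of `G`: for every slice `S` of the unit
ball, every unit vector `x` in `S ∩ G` and every `ε > 0` there is `y` in `S` with
`‖x - y‖ > 2 - ε`. For `G = X` this is the DLD2P of `X`. -/
def SliceDiametral (G : Set X) : Prop :=
  ∀ S : Set X, IsSlice S → ∀ x ∈ S, ‖x‖ = 1 → x ∈ G → ∀ ε : ℝ, 0 < ε →
    ∃ y ∈ S, ‖x - y‖ > 2 - ε

/-- The diametral property of relatively weakly open sets at the unit vectors of `G`: for every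
relatively weakly open subset `W` of the unit ball, every unit vector `x` in `W ∩ G` and every
`ε > 0` there is `y` in `W` with `‖x - y‖ > 2 - ε`. For `G = X` this is the DD2P of `X`. -/
def WeakDiametral (G : Set X) : Prop :=
  ∀ W : Set X, IsWeaklyOpenInBall W → ∀ x ∈ W, ‖x‖ = 1 → x ∈ G → ∀ ε : ℝ, 0 < ε →
    ∃ y ∈ W, ‖x - y‖ > 2 - ε

/-- The same at all nonzero points of the ball, with `1 + ‖x‖` in place of `2`: for every
relatively weakly open subset `W` of the unit ball, every nonzero `x` in `W` with `x / ‖x‖` in `G`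
and every `ε > 0` there is `y` in `W` with `‖x - y‖ > 1 + ‖x‖ - ε`. -/
def BallDiametral (G : Set X) : Prop :=
  ∀ W : Set X, IsWeaklyOpenInBall W → ∀ x ∈ W, x ≠ 0 → ‖x‖⁻¹ • x ∈ G → ∀ ε : ℝ, 0 < ε →
    ∃ y ∈ W, ‖x - y‖ > 1 + ‖x‖ - ε

/-- The diametral property of convex combinations of relatively weakly open sets: let
`W_1, …, W_n` be relatively weakly open subsets of the unit ball, `c_1, …, c_n > 0` with sum `1`, and
let `x_i` in `W_i ∩ G` be such that `∑ c_i x_i` is a unit vector. Then for every `ε > 0` there are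
`y_i` in `W_i` with `‖∑ c_i x_i - ∑ c_i y_i‖ > 2 - ε`. For `G = X`: every unit vector of a convex
combination of relatively weakly open sets is at distance almost `2` from some point of it. -/
def ConvexDiametral (G : Set X) : Prop :=
  ∀ (n : ℕ) (W : Fin n → Set X) (c : Fin n → ℝ) (x : Fin n → X),
    (∀ i, IsWeaklyOpenInBall (W i)) → (∀ i, 0 < c i) → ∑ i, c i = 1 →
    (∀ i, x i ∈ W i ∧ x i ∈ G) → ‖∑ i, c i • x i‖ = 1 → ∀ ε : ℝ, 0 < ε →
    ∃ y : Fin n → X, (∀ i, y i ∈ W i) ∧ ‖∑ i, c i • x i - ∑ i, c i • y i‖ > 2 - ε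

/-- The relative Daugavet property of faces: let `P` be a finite set of unit vectors of `G` whose
sum has norm the number of its elements, and let `W_1, …, W_n` be relatively weakly open subsets of
the unit ball, each of which meets the convex hull of `P ∪ -P`. Then for every `ε > 0` there are
`y_i` in `W_i` and one functional `g` of norm at most `1` with `g p > 1 - ε` for all `p` in `P` and
`g (y_i) < -1 + ε` for all `i`. -/
def FaceDiametral (G : Set X) : Prop :=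
  ∀ P : Finset X, (∀ p ∈ P, ‖p‖ = 1 ∧ p ∈ G) → ‖∑ p ∈ P, p‖ = P.card →
    ∀ (n : ℕ) (W : Fin n → Set X), (∀ i, IsWeaklyOpenInBall (W i) ∧
      (W i ∩ convexHull ℝ ((P : Set X) ∪ -(P : Set X))).Nonempty) → ∀ ε : ℝ, 0 < ε →
    ∃ (y : Fin n → X) (g : X →L[ℝ] ℝ), ‖g‖ ≤ 1 ∧ (∀ p ∈ P, g p > 1 - ε) ∧
      ∀ i, y i ∈ W i ∧ g (y i) < -1 + ε

/-- The diametral property of slices at the unit vectors of `G`, with a free functional. -/
private lemma slice (G : Set X) (h : SliceDiametral G)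
    (f : X →L[ℝ] ℝ) (x : X) (hx : ‖x‖ = 1) (hxG : x ∈ G) (τ : ℝ) (hτ : 0 < τ) (ε : ℝ)
    (hε : 0 < ε) :
    ∃ y : X, ‖y‖ ≤ 1 ∧ f x - τ < f y ∧ 2 - ε < ‖x - y‖ := by
  by_cases hf : f = 0
  · refine ⟨-x, by rw [norm_neg, hx], by rw [hf]; simp [hτ], ?_⟩
    have : x - -x = (2 : ℝ) • x := by rw [two_smul]; abel
    rw [this, norm_smul, hx, mul_one, Real.norm_eq_abs, abs_of_pos (by norm_num : (0:ℝ) < 2)]
    linarith
  · have hfn : 0 < ‖f‖ := norm_pos_iff.mpr hf
    set g : X →L[ℝ] ℝ := ‖f‖⁻¹ • f with hg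
    have hgn : ‖g‖ = 1 := by
      rw [hg, norm_smul, norm_inv, norm_norm, inv_mul_cancel₀ hfn.ne']
    have hgx : ∀ z : X, g z = ‖f‖⁻¹ * f z := fun z => by rw [hg]; simp
    have h1 : g x ≤ 1 := by
      have := g.le_opNorm x
      rw [hx, hgn, mul_one] at this
      exact (le_abs_self _).trans this
    have hα : 0 < 1 - g x + τ / ‖f‖ := by
      have : 0 < τ / ‖f‖ := div_pos hτ hfn
      linarith
    obtain ⟨y, hyS, hy⟩ := h _ ⟨g, 1 - g x + τ / ‖f‖, hgn, hα, rfl⟩ x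
      ⟨by rw [mem_closedBall_zero_iff, hx], by
        have : 0 < τ / ‖f‖ := div_pos hτ hfn
        show g x > 1 - (1 - g x + τ / ‖f‖)
        linarith⟩ hx hxG ε hε
    refine ⟨y, by simpa using hyS.1, ?_, hy⟩
    have h2 : g y > 1 - (1 - g x + τ / ‖f‖) := hyS.2
    rw [hgx, hgx] at h2
    have h3 : ‖f‖⁻¹ * f x - τ / ‖f‖ < ‖f‖⁻¹ * f y := by linarith
    have h4 : ‖f‖ * (‖f‖⁻¹ * f x - τ / ‖f‖) < ‖f‖ * (‖f‖⁻¹ * f y) :=
      mul_lt_mul_of_pos_left h3 hfn
    have e1 : ‖f‖ * (‖f‖⁻¹ * f x - τ / ‖f‖) = f x - τ := by field_simp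
    have e2 : ‖f‖ * (‖f‖⁻¹ * f y) = f y := by field_simp
    rwa [e1, e2] at h4

/-- `Z` is aligned up to `η`: one functional of the dual ball is at least `1 - η` on `Z`. -/
def Aligned (Z : Set X) (η : ℝ) : Prop :=
  ∃ g : X →L[ℝ] ℝ, ‖g‖ ≤ 1 ∧ ∀ z ∈ Z, 1 - η ≤ g z

private lemma Aligned.mono {Z : Set X} {η η' : ℝ} (h : Aligned Z η) (hη : η ≤ η') :
    Aligned Z η' := by
  obtain ⟨g, h1, h2⟩ := h
  exact ⟨g, h1, fun z hz => by linarith [h2 z hz]⟩

private lemma apply_le (g : X →L[ℝ] ℝ) (hg : ‖g‖ ≤ 1) (z : X) (hz : ‖z‖ ≤ 1) : g z ≤ 1 := by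
  have h1 := g.le_opNorm z
  have h2 : ‖g‖ * ‖z‖ ≤ 1 * 1 := mul_le_mul hg hz (norm_nonneg _) (by norm_num)
  have h3 := le_abs_self (g z)
  rw [Real.norm_eq_abs] at h1
  linarith

/-- The step: an aligned family containing the unit vector `v` of `G` can be enlarged by `-w`,
with `f w` at least about `|f v|`. -/
private lemma step (G : Set X) (hG : IsOpen G) (h : SliceDiametral G) (v : X) (hv : ‖v‖ = 1) (hvG : v ∈ G)
    (N : ℕ) (K c η' : ℝ) (hK : 0 ≤ K) (hc : 0 < c) (hη' : 0 < η') :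
    ∃ η : ℝ, 0 < η ∧ ∀ Z : Finset X, (∀ z ∈ Z, ‖z‖ ≤ 1) → Z.card ≤ N → v ∈ Z →
      Aligned (Z : Set X) η → ∀ f : X →L[ℝ] ℝ, ‖f‖ ≤ K →
      ∃ w : X, ‖w‖ ≤ 1 ∧ |f v| - c ≤ f w ∧ ∃ g : X →L[ℝ] ℝ, ‖g‖ ≤ 1 ∧
        (∀ z ∈ Z, 1 - η' ≤ g z) ∧ 1 - η' ≤ g (-w) := by
  obtain ⟨r, hr0, hr⟩ := Metric.isOpen_iff.mp hG v hvG
  have hN : (0 : ℝ) ≤ N := Nat.cast_nonneg N
  set t : ℝ := min (1 / (N + 1)) (min (r / (8 * (N + 1))) (c / (8 * (K + 1) * (N + 1)))) with ht
  have ht0 : 0 < t := by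
    rw [ht]
    refine lt_min (by positivity) (lt_min (by positivity) (by positivity))
  have ht1 : t * (N + 1) ≤ 1 := by
    have : t ≤ 1 / (N + 1) := min_le_left _ _
    rwa [le_div_iff₀ (by positivity)] at this
  have ht2 : t * (8 * (N + 1)) ≤ r := by
    have : t ≤ r / (8 * (N + 1)) := (min_le_right _ _).trans (min_le_left _ _)
    rwa [le_div_iff₀ (by positivity)] at this
  have ht3 : t * (8 * (K + 1) * (N + 1)) ≤ c := by
    have : t ≤ c / (8 * (K + 1) * (N + 1)) := (min_le_right _ _).trans (min_le_right _ _)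
    rwa [le_div_iff₀ (by positivity)] at this
  set η : ℝ := min (t * η' / 4) (min (r / 16) (min (c / (16 * (K + 1))) (min (1 / 4) η'))) with hη
  have hη0 : 0 < η := by
    rw [hη]
    refine lt_min (by positivity) (lt_min (by positivity) (lt_min (by positivity)
      (lt_min (by norm_num) hη')))
  have hη1 : η ≤ t * η' / 4 := min_le_left _ _
  have hη2 : η ≤ r / 16 := (min_le_right _ _).trans (min_le_left _ _)
  have hη3 : η * (16 * (K + 1)) ≤ c := by
    have : η ≤ c / (16 * (K + 1)) :=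
      (min_le_right _ _).trans ((min_le_right _ _).trans (min_le_left _ _))
    rwa [le_div_iff₀ (by positivity)] at this
  have hη4 : η ≤ 1 / 4 :=
    (min_le_right _ _).trans ((min_le_right _ _).trans ((min_le_right _ _).trans (min_le_left _ _)))
  have hη5 : η ≤ η' :=
    (min_le_right _ _).trans ((min_le_right _ _).trans ((min_le_right _ _).trans
      (min_le_right _ _)))
  refine ⟨η, hη0, ?_⟩
  rintro Z hZ hcard hvZ ⟨g, hg1, hg2⟩ f hf
  set m : ℝ := (Z.card : ℝ) with hm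
  have hm0 : 0 ≤ m := Nat.cast_nonneg _
  have hmN : m ≤ N := by rw [hm]; exact_mod_cast hcard
  set u : X := v + t • ∑ z ∈ Z, z with hu
  have htm : 0 ≤ t * m := by positivity
  have htmN : t * m ≤ t * N := mul_le_mul_of_nonneg_left hmN ht0.le
  have htm1 : t * m ≤ 1 := by nlinarith
  have hsum : ‖∑ z ∈ Z, z‖ ≤ m := by
    calc ‖∑ z ∈ Z, z‖ ≤ ∑ z ∈ Z, ‖z‖ := norm_sum_le _ _
      _ ≤ ∑ z ∈ Z, (1 : ℝ) := Finset.sum_le_sum fun z hz => hZ z hz
      _ = m := by simp [hm]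
  have hts : ‖t • ∑ z ∈ Z, z‖ ≤ t * m := by
    rw [norm_smul, Real.norm_eq_abs, abs_of_pos ht0]
    exact mul_le_mul_of_nonneg_left hsum ht0.le
  have hu_le : ‖u‖ ≤ 1 + t * m := by
    calc ‖u‖ ≤ ‖v‖ + ‖t • ∑ z ∈ Z, z‖ := norm_add_le _ _
      _ ≤ 1 + t * m := by rw [hv]; linarith
  have hgsum : m * (1 - η) ≤ g (∑ z ∈ Z, z) := by
    rw [map_sum]
    calc m * (1 - η) = ∑ z ∈ Z, (1 - η) := by rw [Finset.sum_const, nsmul_eq_mul]
      _ ≤ ∑ z ∈ Z, g z := Finset.sum_le_sum fun z hz => hg2 z hz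
  have hgu : (1 + t * m) * (1 - η) ≤ g u := by
    rw [hu, map_add, map_smul, smul_eq_mul]
    have h1 := hg2 v hvZ
    have h2 := mul_le_mul_of_nonneg_left hgsum ht0.le
    linarith
  have hgu2 : g u ≤ ‖u‖ := by
    have h1 := g.le_opNorm u
    rw [Real.norm_eq_abs] at h1
    have h2 : ‖g‖ * ‖u‖ ≤ 1 * ‖u‖ := mul_le_mul_of_nonneg_right hg1 (norm_nonneg _)
    linarith [le_abs_self (g u)]
  have hu_ge : (1 + t * m) * (1 - η) ≤ ‖u‖ := hgu.trans hgu2
  have hupos : 0 < ‖u‖ := by nlinarith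
  have hune : ‖u‖ ≠ 0 := hupos.ne'
  set q : X := ‖u‖⁻¹ • u with hq
  have hqn : ‖q‖ = 1 := by
    rw [hq, norm_smul, norm_inv, norm_norm, inv_mul_cancel₀ hune]
  have huq : u = ‖u‖ • q := by
    rw [hq, smul_smul, mul_inv_cancel₀ hune, one_smul]
  have d1 : ‖u - q‖ = |‖u‖ - 1| := by
    have : u - q = (‖u‖ - 1) • q := by rw [sub_smul, one_smul, ← huq]
    rw [this, norm_smul, hqn, mul_one, Real.norm_eq_abs]
  have d2 : |‖u‖ - 1| ≤ t * m + 2 * η := by
    rw [abs_le]; constructor <;> nlinarith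
  have d3 : ‖v - u‖ ≤ t * m := by
    have : v - u = -(t • ∑ z ∈ Z, z) := by rw [hu]; abel
    rw [this, norm_neg]; exact hts
  have d4 : ‖v - q‖ ≤ 2 * (t * m) + 2 * η := by
    calc ‖v - q‖ = ‖(v - u) + (u - q)‖ := by congr 1; abel
      _ ≤ ‖v - u‖ + ‖u - q‖ := norm_add_le _ _
      _ ≤ t * m + (t * m + 2 * η) := by rw [d1]; linarith
      _ = 2 * (t * m) + 2 * η := by ring
  have htmN1 : t * m ≤ t * (N + 1) := mul_le_mul_of_nonneg_left (by linarith) ht0.le
  have htN : 8 * (t * m) ≤ r := by linarith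
  have htNc : 8 * (K + 1) * (t * m) ≤ c := by
    have h1 : (K + 1) * (t * m) ≤ (K + 1) * (t * (N + 1)) :=
      mul_le_mul_of_nonneg_left htmN1 (by linarith)
    linarith
  have hqG : q ∈ G := hr (by rw [mem_ball, dist_comm, dist_eq_norm]; linarith)
  have hfq : |f v - f q| ≤ c / 2 := by
    rw [← map_sub]
    calc |f (v - q)| ≤ ‖f‖ * ‖v - q‖ := f.le_opNorm _
      _ ≤ K * (2 * (t * m) + 2 * η) := mul_le_mul hf d4 (norm_nonneg _) hK
      _ ≤ (K + 1) * (2 * (t * m) + 2 * η) :=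
        mul_le_mul_of_nonneg_right (by linarith) (by linarith)
      _ ≤ c / 2 := by linarith
  have hfq1 := (abs_le.mp hfq).1
  have hfq2 := (abs_le.mp hfq).2
  -- the new vector
  have hw : ∃ w : X, ‖w‖ ≤ 1 ∧ |f v| - c ≤ f w ∧ 2 - η < ‖q - w‖ := by
    rcases le_total 0 (f v) with hfv | hfv
    · obtain ⟨w, hw1, hw2, hw3⟩ := slice G h f q hqn hqG (c / 2) (by linarith) η hη0
      refine ⟨w, hw1, ?_, hw3⟩
      rw [abs_of_nonneg hfv]
      linarith
    · refine ⟨-q, by rw [norm_neg, hqn], ?_, ?_⟩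
      · rw [abs_of_nonpos hfv, map_neg]
        linarith
      · have : q - -q = (2 : ℝ) • q := by rw [two_smul]; abel
        rw [this, norm_smul, hqn, mul_one, Real.norm_eq_abs, abs_of_pos (by norm_num : (0:ℝ) < 2)]
        linarith
  obtain ⟨w, hw1, hw2, hw3⟩ := hw
  obtain ⟨g', hg'1, hg'2⟩ := exists_dual_vector'' ℝ (q - w)
  have hg'q : g' q ≤ 1 := apply_le g' hg'1 q hqn.le
  have hg'w : g' (-w) ≤ 1 := apply_le g' hg'1 (-w) (by rw [norm_neg]; exact hw1)
  have hg'e : g' q + g' (-w) = ‖q - w‖ := by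
    rw [← map_add, ← sub_eq_add_neg]
    simpa using hg'2
  refine ⟨w, hw1, hw2, g', hg'1, ?_, by linarith⟩
  intro z hz
  have hg'u : (1 + t * m) * (1 - 2 * η) ≤ g' u := by
    have e1 : g' u = ‖u‖ * g' q := by
      conv_lhs => rw [huq]
      rw [map_smul, smul_eq_mul]
    rw [e1]
    have h1 : 1 - η ≤ g' q := by linarith
    have h2 : (1 + t * m) * (1 - η) * (1 - η) ≤ ‖u‖ * g' q :=
      mul_le_mul hu_ge h1 (by linarith) hupos.le
    have h3 : (1 + t * m) * (1 - 2 * η) ≤ (1 + t * m) * (1 - η) * (1 - η) := by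
      nlinarith [mul_nonneg (by linarith : (0:ℝ) ≤ 1 + t * m) (sq_nonneg η)]
    linarith
  have hg'sum : g' (∑ y ∈ Z, y) ≤ (m - 1) + g' z := by
    classical
    rw [map_sum, ← Finset.sum_erase_add _ _ hz]
    have h1 : ∑ y ∈ Z.erase z, g' y ≤ ∑ y ∈ Z.erase z, (1 : ℝ) :=
      Finset.sum_le_sum fun y hy => apply_le g' hg'1 y (hZ y (Finset.mem_of_mem_erase hy))
    have h2 : ∑ y ∈ Z.erase z, (1 : ℝ) = m - 1 := by
      rw [Finset.sum_const, Finset.card_erase_of_mem hz, nsmul_eq_mul, mul_one, hm]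
      have : 1 ≤ Z.card := Finset.card_pos.mpr ⟨z, hz⟩
      push_cast [Nat.cast_sub this]
      ring
    linarith
  have hg'v : g' v ≤ 1 := apply_le g' hg'1 v hv.le
  have e2 : g' u = g' v + t * g' (∑ y ∈ Z, y) := by
    rw [hu, map_add, map_smul, smul_eq_mul]
  have h5 := mul_le_mul_of_nonneg_left hg'sum ht0.le
  have h6 : t * (1 - g' z) ≤ (1 + t * m) * (2 * η) := by nlinarith
  have h7 : (1 + t * m) * (2 * η) ≤ t * η' := by nlinarith
  have h8 : 1 - g' z ≤ η' := le_of_mul_le_mul_left (h6.trans h7) ht0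
  linarith

/-- A point of the convex hull of `P ∪ -P` is below some `|f p|`. -/
private lemma hull_le (P : Set X) (x : X) (hx : x ∈ convexHull ℝ (P ∪ -P)) (f : X →L[ℝ] ℝ) :
    ∃ p ∈ P, f x ≤ |f p| := by
  by_contra hcon
  push Not at hcon
  have hsub : P ∪ -P ⊆ {z : X | f z < f x} := by
    rintro z (hz | hz)
    · exact lt_of_le_of_lt (le_abs_self _) (hcon z hz)
    · have h1 := hcon (-z) hz
      rw [map_neg, abs_neg] at h1
      exact lt_of_le_of_lt (le_abs_self _) h1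
  have hconv : Convex ℝ {z : X | f z < f x} :=
    (convex_Iio (f x)).is_linear_preimage f.isLinear
  have h1 := convexHull_min hsub hconv hx
  exact lt_irrefl (f x) h1

private lemma hull_norm (P : Set X) (hP : ∀ p ∈ P, ‖p‖ = 1) (x : X)
    (hx : x ∈ convexHull ℝ (P ∪ -P)) : ‖x‖ ≤ 1 := by
  have hsub : P ∪ -P ⊆ closedBall (0 : X) 1 := by
    rintro z (hz | hz)
    · rw [mem_closedBall_zero_iff, hP z hz]
    · rw [mem_closedBall_zero_iff, ← norm_neg, hP (-z) hz]
  have := convexHull_min hsub (convex_closedBall 0 1) hx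
  rwa [mem_closedBall_zero_iff] at this

/-- The step with a parameter that serves all unit vectors of a finite set. -/
private lemma step' (G : Set X) (hG : IsOpen G) (h : SliceDiametral G) (P : Finset X)
    (hP : ∀ p ∈ P, ‖p‖ = 1 ∧ p ∈ G)
    (N : ℕ) (K c η' : ℝ) (hK : 0 ≤ K) (hc : 0 < c) (hη' : 0 < η') :
    ∃ η : ℝ, 0 < η ∧ ∀ v ∈ P, ∀ Z : Finset X, (∀ z ∈ Z, ‖z‖ ≤ 1) → Z.card ≤ N → v ∈ Z →
      Aligned (Z : Set X) η → ∀ f : X →L[ℝ] ℝ, ‖f‖ ≤ K →
      ∃ w : X, ‖w‖ ≤ 1 ∧ |f v| - c ≤ f w ∧ ∃ g : X →L[ℝ] ℝ, ‖g‖ ≤ 1 ∧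
        (∀ z ∈ Z, 1 - η' ≤ g z) ∧ 1 - η' ≤ g (-w) := by
  classical
  induction P using Finset.induction_on with
  | empty => exact ⟨1, one_pos, by simp⟩
  | insert a s _ ih =>
    obtain ⟨η₁, h1, h2⟩ := ih fun p hp => hP p (Finset.mem_insert_of_mem hp)
    have ha := hP a (Finset.mem_insert_self a s)
    obtain ⟨η₂, h3, h4⟩ := step G hG h a ha.1 ha.2 N K c η' hK hc hη'
    refine ⟨min η₁ η₂, lt_min h1 h3, fun v hv Z hZ hc hvZ hal f hf => ?_⟩
    rcases Finset.mem_insert.mp hv with rfl | hv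
    · exact h4 Z hZ hc hvZ (hal.mono (min_le_right _ _)) f hf
    · exact h2 v hv Z hZ hc hvZ (hal.mono (min_le_left _ _)) f hf

/-- The iteration inside one weak neighbourhood. -/
private lemma iterate (G : Set X) (hG : IsOpen G) (h : SliceDiametral G) (P : Finset X)
    (hP : ∀ p ∈ P, ‖p‖ = 1 ∧ p ∈ G) (x : X) (hx : x ∈ convexHull ℝ ((P : Set X) ∪ -(P : Set X)))
    (a : Finset (X →L[ℝ] ℝ)) (N : ℕ) (k : ℕ) :
    ∀ η' : ℝ, 0 < η' → ∃ η : ℝ, 0 < η ∧ ∀ Z : Finset X, (∀ z ∈ Z, ‖z‖ ≤ 1) → Z.card ≤ N →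
      P ⊆ Z → Aligned (Z : Set X) η →
      ∃ (Z' : Finset X) (s : X), Z ⊆ Z' ∧ (∀ z ∈ Z', ‖z‖ ≤ 1) ∧ Z'.card ≤ N + k ∧
        Aligned (Z' : Set X) η' ∧ ‖s‖ ≤ k ∧
        (∀ (g : X →L[ℝ] ℝ) (θ : ℝ), (∀ z ∈ Z', 1 - θ ≤ g z) → k * (1 - θ) ≤ g (-s)) ∧
        ∑ i ∈ a, (i (s - (k : ℝ) • x)) ^ 2 ≤ k * (∑ i ∈ a, (2 * ‖i‖) ^ 2 + 1) := by
  classical
  have hxn : ‖x‖ ≤ 1 := hull_norm _ (fun p hp => (hP p hp).1) x hx
  induction k with
  | zero =>
    intro η' hη'
    refine ⟨η', hη', fun Z hZ hc hPZ hal => ⟨Z, 0, Finset.Subset.refl _, hZ, by simpa using hc, hal,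
      by simp, by simp, by simp⟩⟩
  | succ k ih =>
    intro η' hη'
    have hk0 : (0 : ℝ) ≤ k := Nat.cast_nonneg k
    set L : ℝ := ∑ i ∈ a, ‖i‖ ^ 2 with hL
    have hL0 : 0 ≤ L := Finset.sum_nonneg fun i _ => by positivity
    obtain ⟨η₁, hη₁0, hη₁⟩ := step' G hG h P hP (N + k) (2 * k * L) (1 / 2) η' (by positivity)
      (by norm_num) hη'
    obtain ⟨η, hη0, hη⟩ := ih η₁ hη₁0
    refine ⟨η, hη0, fun Z hZ hc hPZ hal => ?_⟩
    obtain ⟨Z', s, hZZ', hZ', hc', hal', hs, hgs, hsq⟩ := hη Z hZ hc hPZ hal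
    set v : X := s - (k : ℝ) • x with hv
    set f : X →L[ℝ] ℝ := -∑ i ∈ a, (i v) • i with hf
    have hvn : ‖v‖ ≤ 2 * k := by
      calc ‖v‖ ≤ ‖s‖ + ‖(k : ℝ) • x‖ := norm_sub_le _ _
        _ ≤ 2 * k := by
          rw [norm_smul, Real.norm_eq_abs, abs_of_nonneg hk0]
          nlinarith
    have hfn : ‖f‖ ≤ 2 * k * L := by
      rw [hf, norm_neg]
      calc ‖∑ i ∈ a, (i v) • i‖ ≤ ∑ i ∈ a, ‖(i v) • i‖ := norm_sum_le _ _
        _ ≤ ∑ i ∈ a, 2 * k * ‖i‖ ^ 2 := by
          refine Finset.sum_le_sum fun i _ => ?_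
          rw [norm_smul]
          have h1 : ‖i v‖ ≤ ‖i‖ * (2 * k) :=
            (i.le_opNorm v).trans (mul_le_mul_of_nonneg_left hvn (norm_nonneg _))
          calc ‖i v‖ * ‖i‖ ≤ (‖i‖ * (2 * k)) * ‖i‖ :=
                mul_le_mul_of_nonneg_right h1 (norm_nonneg _)
            _ = 2 * k * ‖i‖ ^ 2 := by ring
        _ = 2 * k * L := by rw [hL, Finset.mul_sum]
    have hfx : ∀ z : X, f z = -∑ i ∈ a, i v * i z := by
      intro z
      rw [hf]
      simp
    obtain ⟨p, hp, hpx⟩ := hull_le (P : Set X) x hx f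
    obtain ⟨w, hw1, hw2, g, hg1, hg2, hg3⟩ :=
      hη₁ p hp Z' hZ' hc' (hZZ' (hPZ hp)) hal' f hfn
    refine ⟨insert (-w) Z', s + w, hZZ'.trans (Finset.subset_insert _ _), ?_, ?_, ?_, ?_, ?_, ?_⟩
    · intro z hz
      rcases Finset.mem_insert.mp hz with rfl | hz
      · rw [norm_neg]; exact hw1
      · exact hZ' z hz
    · exact (Finset.card_insert_le _ _).trans (by omega)
    · refine ⟨g, hg1, fun z hz => ?_⟩
      rw [Finset.coe_insert] at hz
      rcases hz with rfl | hz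
      · exact hg3
      · exact hg2 z hz
    · calc ‖s + w‖ ≤ ‖s‖ + ‖w‖ := norm_add_le _ _
        _ ≤ ((k + 1 : ℕ) : ℝ) := by push_cast; linarith
    · intro g₀ θ hg₀
      have h1 := hgs g₀ θ fun z hz => hg₀ z (Finset.mem_insert_of_mem hz)
      have h2 := hg₀ (-w) (Finset.mem_insert_self _ _)
      have e : -(s + w) = -s + -w := by abel
      rw [e, map_add]
      push_cast
      linarith
    · have hcross : ∑ i ∈ a, i v * i (w - x) ≤ 1 / 2 := by
        have h1 := hfx w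
        have h2 := hfx x
        have h3 : ∑ i ∈ a, i v * i (w - x) = f x - f w := by
          rw [h1, h2]
          simp only [map_sub, mul_sub, Finset.sum_sub_distrib]
          ring
        rw [h3]; linarith
      have hsq' : ∑ i ∈ a, (i (w - x)) ^ 2 ≤ ∑ i ∈ a, (2 * ‖i‖) ^ 2 := by
        refine Finset.sum_le_sum fun i _ => ?_
        have hwx : ‖w - x‖ ≤ 2 := by
          calc ‖w - x‖ ≤ ‖w‖ + ‖x‖ := norm_sub_le _ _
            _ ≤ 2 := by linarith
        have h1 : |i (w - x)| ≤ 2 * ‖i‖ := by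
          have := i.le_opNorm (w - x)
          rw [Real.norm_eq_abs] at this
          nlinarith [norm_nonneg i]
        exact sq_le_sq' (by linarith [(abs_le.mp h1).1]) (abs_le.mp h1).2
      have hdec : s + w - ((k + 1 : ℕ) : ℝ) • x = v + (w - x) := by
        rw [hv]; push_cast; rw [add_smul, one_smul]; abel
      rw [hdec]
      have hexp : ∑ i ∈ a, (i (v + (w - x))) ^ 2
          = ∑ i ∈ a, (i v) ^ 2 + 2 * ∑ i ∈ a, i v * i (w - x)
            + ∑ i ∈ a, (i (w - x)) ^ 2 := by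
        rw [Finset.mul_sum, ← Finset.sum_add_distrib, ← Finset.sum_add_distrib]
        refine Finset.sum_congr rfl fun i _ => ?_
        rw [map_add]; ring
      rw [hexp]
      push_cast
      linarith

/-- One point in one weak neighbourhood. -/
private lemma group (G : Set X) (hG : IsOpen G) (h : SliceDiametral G) (P : Finset X)
    (hP : ∀ p ∈ P, ‖p‖ = 1 ∧ p ∈ G) (x : X) (hx : x ∈ convexHull ℝ ((P : Set X) ∪ -(P : Set X)))
    (a : Finset (X →L[ℝ] ℝ)) (δ : ℝ) (hδ : 0 < δ) (N : ℕ) (η' : ℝ) (hη' : 0 < η') :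
    ∃ η : ℝ, 0 < η ∧ ∀ Z : Finset X, (∀ z ∈ Z, ‖z‖ ≤ 1) → Z.card ≤ N →
      P ⊆ Z → Aligned (Z : Set X) η →
      ∃ y : X, ‖y‖ ≤ 1 ∧ (∀ i ∈ a, |i (y - x)| < δ) ∧ Aligned (insert (-y) (Z : Set X)) η' := by
  set C : ℝ := ∑ i ∈ a, (2 * ‖i‖) ^ 2 + 1 with hC
  have hC0 : 0 < C := by
    have : 0 ≤ ∑ i ∈ a, (2 * ‖i‖) ^ 2 := Finset.sum_nonneg fun i _ => by positivity
    linarith
  obtain ⟨K, hK⟩ := exists_nat_gt (C / δ ^ 2)
  have hKpos : (0 : ℝ) < K := lt_of_le_of_lt (by positivity) hK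
  obtain ⟨η, hη0, hη⟩ := iterate G hG h P hP x hx a N K η' hη'
  refine ⟨η, hη0, fun Z hZ hc hPZ hal => ?_⟩
  obtain ⟨Z', s, hZZ', hZ', hc', ⟨g, hg1, hg2⟩, hs, hgs, hsq⟩ := hη Z hZ hc hPZ hal
  refine ⟨(K : ℝ)⁻¹ • s, ?_, ?_, g, hg1, ?_⟩
  · rw [norm_smul, norm_inv, Real.norm_eq_abs, abs_of_pos hKpos]
    calc (K : ℝ)⁻¹ * ‖s‖ ≤ (K : ℝ)⁻¹ * K := mul_le_mul_of_nonneg_left hs (by positivity)
      _ = 1 := inv_mul_cancel₀ hKpos.ne'
  · intro i hi
    have e : (K : ℝ)⁻¹ • s - x = (K : ℝ)⁻¹ • (s - (K : ℝ) • x) := by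
      rw [smul_sub, smul_smul, inv_mul_cancel₀ hKpos.ne', one_smul]
    rw [e, map_smul, smul_eq_mul]
    have h3 : (i (s - (K : ℝ) • x)) ^ 2 ≤ K * C :=
      (Finset.single_le_sum (f := fun i : X →L[ℝ] ℝ => (i (s - (K : ℝ) • x)) ^ 2)
        (fun j _ => sq_nonneg _) hi).trans hsq
    have h4 : ((K : ℝ)⁻¹ * i (s - (K : ℝ) • x)) ^ 2 < δ ^ 2 := by
      rw [mul_pow]
      calc ((K : ℝ)⁻¹) ^ 2 * (i (s - (K : ℝ) • x)) ^ 2 ≤ ((K : ℝ)⁻¹) ^ 2 * (K * C) :=
            mul_le_mul_of_nonneg_left h3 (by positivity)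
        _ = C / K := by field_simp
        _ < δ ^ 2 := by
          rw [div_lt_iff₀ hKpos]
          rw [div_lt_iff₀ (by positivity)] at hK
          linarith
    exact abs_lt_of_sq_lt_sq h4 hδ.le
  · rintro z (rfl | hz)
    · have h1 := hgs g η' hg2
      have e : -((K : ℝ)⁻¹ • s) = (K : ℝ)⁻¹ • (-s) := by rw [smul_neg]
      rw [e, map_smul, smul_eq_mul]
      calc 1 - η' = (K : ℝ)⁻¹ * (K * (1 - η')) := by field_simp
        _ ≤ (K : ℝ)⁻¹ * g (-s) := mul_le_mul_of_nonneg_left h1 (by positivity)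
    · exact hg2 z (hZZ' hz)

/-- A weak neighbourhood of `x` contains all `y` for which finitely many functionals are small
at `y - x`. -/
private lemma weak_nhds (U : Set (WeakSpace ℝ X)) (hU : IsOpen U) (x : X)
    (hx : toWeakSpace ℝ X x ∈ U) :
    ∃ (a : Finset (X →L[ℝ] ℝ)) (δ : ℝ), 0 < δ ∧
      ∀ y : X, (∀ i ∈ a, |i (y - x)| < δ) → toWeakSpace ℝ X y ∈ U := by
  have hW := (topDualPairing ℝ X).flip.weakBilin_withSeminorms
  obtain ⟨a, δ, hδ, hsub⟩ := (hW.mem_nhds_iff (toWeakSpace ℝ X x) U).mp (hU.mem_nhds hx)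
  refine ⟨a, δ, hδ, fun y hy => hsub ?_⟩
  rw [Seminorm.mem_ball]
  refine Seminorm.finset_sup_apply_lt hδ fun i hi => ?_
  exact hy i hi

/-- Slices are relatively weakly open. -/
private lemma slice_weaklyOpen (S : Set X) (hS : IsSlice S) : IsWeaklyOpenInBall S := by
  obtain ⟨f, α, -, -, rfl⟩ := hS
  refine ⟨{z : WeakSpace ℝ X | (topDualPairing ℝ X).flip z f > 1 - α}, ?_, rfl⟩
  exact isOpen_lt continuous_const (WeakBilin.eval_continuous (topDualPairing ℝ X).flip f)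

/-- All the weakly open sets. -/
private lemma all (G : Set X) (hG : IsOpen G) (h : SliceDiametral G) (P : Finset X)
    (hP : ∀ p ∈ P, ‖p‖ = 1 ∧ p ∈ G) (hal : ∀ η : ℝ, 0 < η → Aligned (P : Set X) η)
    {n : ℕ} (W : Fin n → Set X) (hW : ∀ i, IsWeaklyOpenInBall (W i))
    (hne : ∀ i, (W i ∩ convexHull ℝ ((P : Set X) ∪ -(P : Set X))).Nonempty) (s : Finset (Fin n)) :
    ∀ η : ℝ, 0 < η → ∃ y : Fin n → X, (∀ i ∈ s, y i ∈ W i) ∧
      ∃ g : X →L[ℝ] ℝ, ‖g‖ ≤ 1 ∧ (∀ p ∈ P, 1 - η ≤ g p) ∧ ∀ i ∈ s, 1 - η ≤ g (-(y i)) := by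
  classical
  induction s using Finset.induction_on with
  | empty =>
    intro η hη
    obtain ⟨g, hg1, hg2⟩ := hal η hη
    exact ⟨fun _ => 0, by simp, g, hg1, hg2, by simp⟩
  | insert j s hj ih =>
    intro η hη
    obtain ⟨x, hxW, hxP⟩ := hne j
    obtain ⟨U, hU, hWU⟩ := hW j
    rw [hWU] at hxW
    obtain ⟨a, δ, hδ, ha⟩ := weak_nhds U hU x hxW.2
    obtain ⟨η₁, hη₁0, hη₁⟩ := group G hG h P hP x hxP a δ hδ (P.card + s.card) η hη
    obtain ⟨y, hy, g, hg1, hg2, hg3⟩ := ih η₁ hη₁0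
    obtain ⟨z, hz1, hz2, g', hg'1, hg'2⟩ := hη₁ (P ∪ s.image fun i => -(y i)) (by
        intro z hz
        rcases Finset.mem_union.mp hz with hz | hz
        · exact (hP z hz).1.le
        · obtain ⟨i, hi, rfl⟩ := Finset.mem_image.mp hz
          have h1 := hy i hi
          obtain ⟨U', -, hU'⟩ := hW i
          rw [hU'] at h1
          rw [norm_neg]
          simpa using h1.1)
      ((Finset.card_union_le _ _).trans (Nat.add_le_add_left Finset.card_image_le _))
      Finset.subset_union_left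
      ⟨g, hg1, by
        intro z hz
        rw [Finset.coe_union] at hz
        rcases hz with hz | hz
        · exact hg2 z hz
        · rw [Finset.coe_image] at hz
          obtain ⟨i, hi, rfl⟩ := hz
          exact hg3 i hi⟩
    refine ⟨fun i => if i = j then z else y i, ?_, g', hg'1, ?_, ?_⟩
    · intro i hi
      by_cases hij : i = j
      · subst hij
        simp only [if_true]
        rw [hWU]
        exact ⟨by rwa [mem_closedBall_zero_iff], ha z hz2⟩
      · simp only [if_neg hij]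
        exact hy i ((Finset.mem_insert.mp hi).resolve_left hij)
    · intro p hp
      refine hg'2 p (Set.mem_insert_of_mem _ ?_)
      rw [Finset.coe_union]
      exact Or.inl hp
    · intro i hi
      by_cases hij : i = j
      · subst hij
        simp only [if_true]
        exact hg'2 _ (Set.mem_insert _ _)
      · simp only [if_neg hij]
        refine hg'2 _ (Set.mem_insert_of_mem _ ?_)
        rw [Finset.coe_union, Finset.coe_image]
        exact Or.inr ⟨i, (Finset.mem_insert.mp hi).resolve_left hij, rfl⟩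

/-- A family of unit vectors whose sum has full norm lies in one face. -/
private lemma aligned_of_norm (P : Finset X) (hP : ∀ p ∈ P, ‖p‖ = 1)
    (hs : ‖∑ p ∈ P, p‖ = P.card) : ∀ η : ℝ, 0 < η → Aligned (P : Set X) η := by
  classical
  intro η hη
  obtain ⟨g, hg1, hg2⟩ := exists_dual_vector'' ℝ (∑ p ∈ P, p)
  refine ⟨g, hg1, fun z hz => ?_⟩
  have hz' : z ∈ P := hz
  have h1 : g (∑ p ∈ P, p) = P.card := by
    rw [← hs]; simpa using hg2
  rw [map_sum, ← Finset.sum_erase_add _ _ hz'] at h1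
  have h2 : ∑ y ∈ P.erase z, g y ≤ ∑ y ∈ P.erase z, (1 : ℝ) :=
    Finset.sum_le_sum fun y hy => apply_le g hg1 y (hP y (Finset.mem_of_mem_erase hy)).le
  have h3 : ∑ y ∈ P.erase z, (1 : ℝ) = P.card - 1 := by
    rw [Finset.sum_const, Finset.card_erase_of_mem hz', nsmul_eq_mul, mul_one]
    have : 1 ≤ P.card := Finset.card_pos.mpr ⟨z, hz'⟩
    push_cast [Nat.cast_sub this]
    ring
  linarith

private lemma face_of_slice (G : Set X) (hG : IsOpen G) (h : SliceDiametral G) : FaceDiametral G := by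
  intro P hP hs n W hW ε hε
  obtain ⟨y, hy, g, hg1, hg2, hg3⟩ := all G hG h P hP
    (aligned_of_norm P (fun p hp => (hP p hp).1) hs) W (fun i => (hW i).1) (fun i => (hW i).2)
    Finset.univ (ε / 2) (by linarith)
  refine ⟨y, g, hg1, fun p hp => by linarith [hg2 p hp], fun i => ⟨hy i (Finset.mem_univ i), ?_⟩⟩
  have h1 := hg3 i (Finset.mem_univ i)
  rw [map_neg] at h1
  linarith

private lemma ball_of_face (G : Set X) (h : FaceDiametral G) : BallDiametral G := by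
  intro W hW x hx hx0 hxG ε hε
  have hxn : 0 < ‖x‖ := norm_pos_iff.mpr hx0
  have hx1 : ‖x‖ ≤ 1 := by
    obtain ⟨U, -, hU⟩ := hW
    rw [hU] at hx
    simpa using hx.1
  set p : X := ‖x‖⁻¹ • x with hp
  have hpn : ‖p‖ = 1 := by
    rw [hp, norm_smul, norm_inv, norm_norm, inv_mul_cancel₀ hxn.ne']
  have hxp : x = ‖x‖ • p := by
    rw [hp, smul_smul, mul_inv_cancel₀ hxn.ne', one_smul]
  have hmem : x ∈ convexHull ℝ ((({p} : Finset X) : Set X) ∪ -(({p} : Finset X) : Set X)) := by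
    have h1 : p ∈ convexHull ℝ ((({p} : Finset X) : Set X) ∪ -(({p} : Finset X) : Set X)) :=
      subset_convexHull ℝ _ (Or.inl (by simp))
    have h2 : -p ∈ convexHull ℝ ((({p} : Finset X) : Set X) ∪ -(({p} : Finset X) : Set X)) :=
      subset_convexHull ℝ _ (Or.inr (by simp))
    have h3 := convex_convexHull ℝ ((({p} : Finset X) : Set X) ∪ -(({p} : Finset X) : Set X))
      h1 h2 (show 0 ≤ (1 + ‖x‖) / 2 by positivity) (show 0 ≤ (1 - ‖x‖) / 2 by linarith) (by ring)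
    have h4 : ((1 + ‖x‖) / 2) • p + ((1 - ‖x‖) / 2) • (-p) = x := by
      rw [smul_neg, ← sub_eq_add_neg, ← sub_smul]
      conv_rhs => rw [hxp]
      congr 1
      ring
    rwa [h4] at h3
  obtain ⟨y, g, hg1, hg2, hg3⟩ := h {p} (by
      intro q hq
      rw [Finset.mem_singleton] at hq
      rw [hq]
      exact ⟨hpn, hxG⟩) (by simp [hpn]) 1 (fun _ => W) (fun _ => ⟨hW, x, hx, hmem⟩) (ε / 2)
      (by linarith)
  refine ⟨y 0, (hg3 0).1, ?_⟩
  have h1 := (hg3 0).2
  have h2 := hg2 p (Finset.mem_singleton_self p)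
  have h3 : g x = ‖x‖ * g p := by
    conv_lhs => rw [hxp]
    rw [map_smul, smul_eq_mul]
  have h4 : g (x - y 0) ≤ ‖x - y 0‖ := by
    have h5 := g.le_opNorm (x - y 0)
    have h6 : ‖g‖ * ‖x - y 0‖ ≤ 1 * ‖x - y 0‖ := mul_le_mul_of_nonneg_right hg1 (norm_nonneg _)
    rw [Real.norm_eq_abs] at h5
    linarith [le_abs_self (g (x - y 0))]
  rw [map_sub] at h4
  have h5 : ‖x‖ * (1 - ε / 2) ≤ ‖x‖ * g p := mul_le_mul_of_nonneg_left h2.le hxn.le
  have h6 : ‖x‖ * (ε / 2) ≤ 1 * (ε / 2) := mul_le_mul_of_nonneg_right hx1 (by linarith)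
  linarith

private lemma convex_of_face (G : Set X) (h : FaceDiametral G) : ConvexDiametral G := by
  classical
  intro n W c x hW hc hc1 hx hn ε hε
  have hxb : ∀ i, ‖x i‖ ≤ 1 := by
    intro i
    obtain ⟨U, -, hU⟩ := hW i
    have h1 := (hx i).1
    rw [hU] at h1
    simpa using h1.1
  obtain ⟨f, hf1, hf2⟩ := exists_dual_vector'' ℝ (∑ i, c i • x i)
  have hfx : ∀ i, f (x i) ≤ 1 := fun i => apply_le f hf1 (x i) (hxb i)
  have hf3 : ∑ i, c i * (1 - f (x i)) = 0 := by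
    have h1 : f (∑ i, c i • x i) = 1 := by
      have : (f (∑ i, c i • x i) : ℝ) = ‖∑ i, c i • x i‖ := by simpa using hf2
      rw [this, hn]
    rw [map_sum] at h1
    simp only [map_smul, smul_eq_mul] at h1
    simp only [mul_sub, mul_one, Finset.sum_sub_distrib]
    rw [hc1, h1]; ring
  have hf4 : ∀ i, f (x i) = 1 := by
    intro i
    have h1 := (Finset.sum_eq_zero_iff_of_nonneg (fun i _ =>
      mul_nonneg (hc i).le (by linarith [hfx i] : (0:ℝ) ≤ 1 - f (x i)))).mp hf3 i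
      (Finset.mem_univ i)
    rcases mul_eq_zero.mp h1 with h2 | h2
    · exact absurd h2 (hc i).ne'
    · linarith
  have hxn : ∀ i, ‖x i‖ = 1 := by
    intro i
    refine le_antisymm (hxb i) ?_
    have h1 := f.le_opNorm (x i)
    rw [hf4 i] at h1
    have h2 : ‖f‖ * ‖x i‖ ≤ 1 * ‖x i‖ := mul_le_mul_of_nonneg_right hf1 (norm_nonneg _)
    have h3 : ‖(1 : ℝ)‖ = 1 := by simp
    linarith
  set P : Finset X := Finset.univ.image x with hP
  have hPf : ∀ p ∈ P, f p = 1 := by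
    intro p hp
    obtain ⟨i, -, rfl⟩ := Finset.mem_image.mp hp
    exact hf4 i
  have hPn : ∀ p ∈ P, ‖p‖ = 1 ∧ p ∈ G := by
    intro p hp
    obtain ⟨i, -, rfl⟩ := Finset.mem_image.mp hp
    exact ⟨hxn i, (hx i).2⟩
  have hPs : ‖∑ p ∈ P, p‖ = P.card := by
    refine le_antisymm ?_ ?_
    · calc ‖∑ p ∈ P, p‖ ≤ ∑ p ∈ P, ‖p‖ := norm_sum_le _ _
        _ = ∑ p ∈ P, (1 : ℝ) := Finset.sum_congr rfl fun p hp => (hPn p hp).1
        _ = P.card := by simp
    · have h1 : f (∑ p ∈ P, p) = P.card := by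
        rw [map_sum, Finset.sum_congr rfl hPf]
        simp
      have h2 := f.le_opNorm (∑ p ∈ P, p)
      rw [h1] at h2
      have h3 : ‖f‖ * ‖∑ p ∈ P, p‖ ≤ 1 * ‖∑ p ∈ P, p‖ :=
        mul_le_mul_of_nonneg_right hf1 (norm_nonneg _)
      have h4 : ‖(P.card : ℝ)‖ = P.card := by simp
      linarith
  obtain ⟨y, g, hg1, hg2, hg3⟩ := h P hPn hPs n W (fun i => ⟨hW i, x i, (hx i).1,
    subset_convexHull ℝ _ (Or.inl (by simp [hP]))⟩) (ε / 4) (by linarith)
  refine ⟨y, fun i => (hg3 i).1, ?_⟩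
  have h1 : g (∑ i, c i • x i - ∑ i, c i • y i) ≤ ‖∑ i, c i • x i - ∑ i, c i • y i‖ := by
    have h5 := g.le_opNorm (∑ i, c i • x i - ∑ i, c i • y i)
    have h6 : ‖g‖ * ‖∑ i, c i • x i - ∑ i, c i • y i‖ ≤ 1 * ‖∑ i, c i • x i - ∑ i, c i • y i‖ :=
      mul_le_mul_of_nonneg_right hg1 (norm_nonneg _)
    rw [Real.norm_eq_abs] at h5
    linarith [le_abs_self (g (∑ i, c i • x i - ∑ i, c i • y i))]
  have h2 : g (∑ i, c i • x i - ∑ i, c i • y i) = ∑ i, c i * (g (x i) - g (y i)) := by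
    rw [map_sub, map_sum, map_sum, ← Finset.sum_sub_distrib]
    refine Finset.sum_congr rfl fun i _ => ?_
    rw [map_smul, map_smul, smul_eq_mul, smul_eq_mul]
    ring
  have h3 : ∑ i, c i * (2 - ε / 2) ≤ ∑ i, c i * (g (x i) - g (y i)) := by
    refine Finset.sum_le_sum fun i _ => mul_le_mul_of_nonneg_left ?_ (hc i).le
    have h5 := hg2 (x i) (by simp [hP])
    have h6 := (hg3 i).2
    linarith
  rw [← Finset.sum_mul, hc1, one_mul] at h3
  linarith

private lemma weak_of_ball (G : Set X) (h : BallDiametral G) : WeakDiametral G := by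
  intro W hW x hx hxn hxG ε hε
  have hx0 : x ≠ 0 := by
    rintro rfl
    simp at hxn
  obtain ⟨y, hy, hy2⟩ := h W hW x hx hx0 (by rw [hxn, inv_one, one_smul]; exact hxG) ε hε
  refine ⟨y, hy, ?_⟩
  rw [hxn] at hy2
  linarith

private lemma weak_of_convex (G : Set X) (h : ConvexDiametral G) : WeakDiametral G := by
  intro W hW x hx hxn hxG ε hε
  obtain ⟨y, hy, hy2⟩ := h 1 (fun _ => W) (fun _ => 1) (fun _ => x) (fun _ => hW)
    (fun _ => one_pos) (by simp) (fun _ => ⟨hx, hxG⟩) (by simp [hxn]) ε hε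
  refine ⟨y 0, hy 0, ?_⟩
  simpa using hy2

private lemma slice_of_weak (G : Set X) (h : WeakDiametral G) : SliceDiametral G := by
  intro S hS
  exact h S (slice_weaklyOpen S hS)

/-- For every real normed space `X` and every norm open subset `G` of `X` the following are
equivalent: the diametral property of slices at the unit vectors of `G`; the same for relatively
weakly open sets; the same at all nonzero points of the ball with direction in `G`; the diametral
property of convex combinations of relatively weakly open sets; the relative Daugavet property of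
faces. For `G = X` the first two are the DLD2P and the DD2P. -/
theorem result (X : Type*) [NormedAddCommGroup X] [NormedSpace ℝ X] (G : Set X)
    (hG : IsOpen G) :
    List.TFAE [SliceDiametral G, WeakDiametral G, BallDiametral G, ConvexDiametral G, FaceDiametral G] := by
  tfae_have 1 → 5 := face_of_slice G hG
  tfae_have 5 → 4 := convex_of_face G
  tfae_have 5 → 3 := ball_of_face G
  tfae_have 3 → 2 := weak_of_ball G
  tfae_have 4 → 2 := weak_of_convex G
  tfae_have 2 → 1 := slice_of_weak G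
  tfae_finish

end Pool.Agent.Results.MP_6ac155_an.DiametralFaces
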